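import Pool.Agent.V11296.CQ2

/-!
The differences `f(n) = 3 n^2 + 3 n + 1 = (n+1)^3 - n^3` of consecutive cubes: which parities of the
numbers of the prime factors of `f(n)` in the residue classes modulo `m` occur together, jointly with
the number of all prime factors modulo `k`, and that those which occur do so often.

The starting files `SquarefreeCubanResidues`, `SquarefreeCubanLogTwo` of this problem have the number
of all prime factors modulo `k` alone. The cancellation theorems `W251.EG.tsG`, `W251.EG.apdE` and the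
passage from pairs to integers `TH890.DV.pnL` used here are those of the starting files.
-/

set_option autoImplicit false

namespace Pool.Agent.Results.MP_22d6bb_nt.CubanClassPatterns

open Finset Filter

open scoped Classical in
/-- the set of the positive integers `X` with `P X` has logarithmic density `0` -/
def LogNull (P : ℕ → Prop) : Prop :=
  Tendsto (fun Z : ℕ => (∑ X ∈ (Icc 1 Z).filter P, 1 / (X : ℝ)) / Real.log Z) atTop (nhds 0)

open scoped Classical in
/-- the number of the prime factors of `N` in a residue class modulo `m`, counted with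
multiplicity -/
noncomputable def factorsIn (m N : ℕ) (b : ZMod m) : ℕ :=
  N.primeFactorsList.countP (fun p : ℕ => (p : ZMod m) = b)

open scoped Classical in
/-- the set of the residue classes modulo `m`, prime to `m`, which contain an odd number of the
prime factors of `N`, counted with multiplicity -/
noncomputable def oddClasses (m : ℕ) [NeZero m] (N : ℕ) : Finset (ZMod m)ˣ :=
  univ.filter (fun b => Odd (factorsIn m N b))

/-- the number of all prime factors of `3 n^2 + 3 n + 1`, counted with multiplicity, is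
`≡ J mod k`, and `T` is the set of the classes modulo `m`, prime to `m`, which contain an odd
number of them -/
def HasPattern (m k J : ℕ) [NeZero m] (T : Finset (ZMod m)ˣ) (n : ℕ) : Prop :=
  (3 * n ^ 2 + 3 * n + 1).primeFactorsList.length ≡ J [MOD k] ∧
    oddClasses m (3 * n ^ 2 + 3 * n + 1) = T

/-- `b` is the residue class of a value `x^2+xy+y^2` prime to `m` -/
def IsNorm (m : ℕ) (b : ZMod m) : Prop := ∃ x y : ℤ,
  IsCoprime (x ^ 2 + x * y + y ^ 2) (m : ℤ) ∧ ((x ^ 2 + x * y + y ^ 2 : ℤ) : ZMod m) = b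

/-- `T` consists of classes of norms, `|T| ≡ J mod 2` if `k` is even, and
`3 a^2 + 3 a + 1 ≡ s^2 ∏_{b ∈ T} b mod m` for the class `s` of a norm -/
def Admissible (m k a J : ℕ) (T : Finset (ZMod m)ˣ) : Prop :=
  (∀ b ∈ T, IsNorm m b) ∧ (2 ∣ k → T.card ≡ J [MOD 2]) ∧
  ∃ s : ZMod m, IsNorm m s ∧
    ((3 * a ^ 2 + 3 * a + 1 : ℕ) : ZMod m) = s ^ 2 * ∏ b ∈ T, (b : ZMod m)

open scoped Classical in
/-- the number of the integers `0 ≤ n ≤ X`, `n ≡ a mod q`, such that `3 n^2 + 3 n + 1` is
squarefree and has the pattern given by `J` and `T` -/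
noncomputable def count (q a m k J : ℕ) [NeZero m] (T : Finset (ZMod m)ˣ) (X : ℕ) : ℕ :=
  ((range (X + 1)).filter (fun n : ℕ => n ≡ a [MOD q] ∧
    Squarefree (3 * n ^ 2 + 3 * n + 1) ∧ HasPattern m k J T n)).card

theorem isNorm_iff (m : ℕ) (b : ZMod m) : IsNorm m b ↔ Pool.Agent.V11296.CV.isN 1 1 m b := by
  unfold IsNorm Pool.Agent.V11296.CV.isN
  have h : ∀ x y : ℤ, x ^ 2 + ((1 : ℕ) : ℤ) * x * y + ((1 : ℕ) : ℤ) * y ^ 2 =
      x ^ 2 + x * y + y ^ 2 := by
    intro x y
    push_cast
    ring
  simp only [h]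

theorem admissible_iff (m k a J : ℕ) (T : Finset (ZMod m)ˣ) : Admissible m k a J T ↔
    Pool.Agent.V11296.CQ.Admn 1 1 m k (3 * a ^ 2 + 3 * a + 1) J T := by
  unfold Admissible Pool.Agent.V11296.CQ.Admn
  simp only [isNorm_iff]

/-- Let `f(n) = 3 n^2 + 3 n + 1`, `m, k ≥ 1`, let `q` be a multiple of `m`, and let `f(a)` be prime
to `m`. Let `J` be an integer and `T` a set of residue classes modulo `m`, prime to `m`.

1. If for some `n ≡ a mod q` the number of the prime factors of `f(n)` is `≡ J mod k` and `T` is the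
  set of the classes prime to `m` which contain an odd number of them, then `(J, T)` is admissible:
  `T` consists of classes of norms `x^2+xy+y^2`, `|T| ≡ J mod 2` if `k` is even, and
  `f(a) ≡ s^2 ∏_{b ∈ T} b mod m` for the class `s` of a norm.
2. Let `(J, T)` be admissible, and `l^2 ∤ f(a)` for all primes `l` with `l^2 ∣ q`. Then for every
  `ε > 0` and almost all `X` at least `X / (log X)^(log 2 + ε)` of the integers `n ≤ X`,
  `n ≡ a mod q`, have `f(n)` squarefree with `≡ J mod k` prime factors, an odd number of them in each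
  class of `T` and an even number in each other class prime to `m`; and for every `δ > 0` and all
  large `X` there are at least `X^(1 - δ)` such `n`. -/
theorem result (m k q a : ℕ) [NeZero m] (hk : 1 ≤ k) (hq : 1 ≤ q) (hmq : m ∣ q)
    (ha : (3 * a ^ 2 + 3 * a + 1).Coprime m) (J : ℕ) (T : Finset (ZMod m)ˣ) :
    (∀ n : ℕ, n ≡ a [MOD q] → HasPattern m k J T n → Admissible m k a J T) ∧
    (Admissible m k a J T →
      (∀ l : ℕ, l.Prime → l ^ 2 ∣ q → ¬ l ^ 2 ∣ 3 * a ^ 2 + 3 * a + 1) →
      (∀ ε : ℝ, 0 < ε →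
        LogNull (fun X => (count q a m k J T X : ℝ) < X / Real.log X ^ (Real.log 2 + ε))) ∧
      ∀ δ : ℝ, 0 < δ → ∃ X₀ : ℕ, ∀ X : ℕ, X₀ ≤ X → (X : ℝ) ^ (1 - δ) ≤ count q a m k J T X) := by
  have htc : ((1, 1) : ℕ × ℕ) ∈ ([(0, 1), (0, 2), (1, 1), (1, 2), (1, 3), (1, 5), (1, 11), (1, 17),
    (1, 41)] : List (ℕ × ℕ)) := by decide
  obtain ⟨_, χ, hF⟩ := Pool.Agent.W251.EG.fd9 1 1 htc
  have hS := Pool.Agent.W251.EG.sps9 1 1 htc
  have hk0 : NeZero k := ⟨by omega⟩
  refine ⟨fun n hn hp => ?_, fun hA hqa => ?_⟩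
  · rw [admissible_iff]
    exact Pool.Agent.V11296.CQ.nec_q hF 3 3 1 (by norm_num) q a J n hmq ha T hn hp.1 hp.2
  · rw [admissible_iff] at hA
    have hAc : (3 * a ^ 2 + 3 * a + 1).Coprime 3 := by
      have h1 : 3 * a ^ 2 + 3 * a + 1 = 1 + 3 * (a ^ 2 + a) := by ring
      rw [h1]
      simp
    have hc : ∀ X, count q a m k J T X = Pool.Agent.V11296.CR.cr 3 3 1 q a
        (Pool.Agent.V11296.CV.Hk m k) (((J : ZMod k), ∑ b ∈ T,
          Pool.Agent.V11296.CV.ev m (b : ZMod m)) : Pool.Agent.V11296.CV.Ak m k) X := by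
      classical
      intro X
      unfold count Pool.Agent.V11296.CR.cr HasPattern
      congr 1
      ext n
      simp only [mem_filter]
      rw [Pool.Agent.V11296.CV.Hk_eq_iff]
      exact Iff.rfl
    obtain ⟨h1, h2⟩ := Pool.Agent.V11296.CQ.suf_q (k := k) hF hS 3 3 1 (by norm_num) (by norm_num)
      q a J hq hmq Nat.prime_three.squarefree hAc ha hqa T hA
    refine ⟨fun ε hε => ?_, fun δ hδ => ?_⟩
    · have h3 := h1 ε hε
      simp only [← hc] at h3
      exact h3
    · have h3 := h2 δ hδ
      simp only [← hc] at h3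
      exact h3

end Pool.Agent.Results.MP_22d6bb_nt.CubanClassPatterns
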