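import Pool.Agent.V11249.NP.Fam

/-!
# Arithmetic progressions of integers `n` with `3 n ^ 2 + 3 n + 1` prime, and their number

`P A N` is the set of the `n` in `(A, A + N]` with `3 n ^ 2 + 3 n + 1` prime. For every length `k` the expected order of
magnitude `N / log N` of `|P A N|` is equivalent to the order `N D / log ^ k N` of the number of the `k`-term
arithmetic progressions in `P A N` with differences up to `D`, for all `D` between a power of `log N` and `N`.
The same holds for all sets of integers `n` of an interval of length `N` such that `3 n ^ 2 + 3 n + 1` has no prime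
factor `≤ N ^ κ`.
-/

set_option autoImplicit false

open Finset Filter

namespace Pool.Agent.Results.MP_22d6bb_nt.ProgressionsOfArguments

/-- the `n` in `(A, A + N]` for which `3 n ^ 2 + 3 n + 1` is prime -/
def P (A N : ℕ) : Finset ℕ := (Ioc A (A + N)).filter (fun n => (3 * n ^ 2 + 3 * n + 1).Prime)

/-- all prime factors of `3 * n ^ 2 + 3 * n + 1` are larger than `N ^ κ` -/
def Rough (κ : ℝ) (N n : ℕ) : Prop := ∀ p : ℕ, p.Prime → (p ∣ 3 * n ^ 2 + 3 * n + 1) → (N : ℝ) ^ κ < p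

open Classical in
/-- The number of the progressions `a, a + d, …, a + (k - 1) d` in `S` with `1 ≤ d ≤ D`. -/
noncomputable def AP (k D : ℕ) (S : Finset ℕ) : ℕ :=
  ((S ×ˢ Icc 1 D).filter (fun q => ∀ j < k, q.1 + j * q.2 ∈ S)).card

open Pool.Agent.W123.RU.Poly Pool.Agent.TH464.PW

/-- the coefficients -/
def cA : Fin 1 → ℤ := ![3]
def cB : Fin 1 → ℤ := ![3]
def cE : Fin 1 → ℤ := ![1]

/-- the system -/
noncomputable def f : Fin 1 → Polynomial ℤ := fun i => quad (cA i) (cB i) (cE i)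

theorem ev0 {n : ℕ} (_hn : 1 ≤ n) : (f 0).eval (n : ℤ) = ((3 * n ^ 2 + 3 * n + 1 : ℕ) : ℤ) := by
  show (quad (3) (3) (1)).eval (n : ℤ) = _
  rw [quad_eval]
  push_cast
  ring

theorem sys : Sys f := by
  refine Pool.Agent.V11249.NP.sys_of cA cB cE ?_ ?_ ?_ 0 0 ?_
  · intro i
    have hi : i = 0 := Subsingleton.elim _ _
    subst hi
    refine Or.inl ⟨by decide, ?_⟩
    show ¬ IsSquare ((3 : ℤ) ^ 2 - 4 * (3) * (1))
    rintro ⟨x, hx⟩
    nlinarith [mul_self_nonneg x]
  · decide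
  · decide
  · decide

theorem rgh (κ : ℝ) (N n : ℕ) (hn : 1 ≤ n) (h : Rough κ N n) : Pool.Agent.V11249.NP.Rgh f κ N n := by
  intro i p hp hd
  apply h p hp
  have hi : i = 0 := Subsingleton.elim _ _
  subst hi
  rw [ev0 hn] at hd
  exact Int.natCast_dvd_natCast.1 hd

theorem mem_P (A N n : ℕ) : n ∈ P A N ↔ (A < n ∧ n ≤ A + N) ∧ ∀ i, ((f i).eval (n : ℤ)).natAbs.Prime := by
  unfold P
  rw [mem_filter, mem_Ioc]
  apply and_congr_right
  rintro ⟨hA, -⟩
  have hn : 1 ≤ n := by omega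
  constructor
  · intro h0 i
    have hi : i = 0 := Subsingleton.elim _ _
    subst hi
    rw [ev0 hn, Int.natAbs_natCast]
    exact h0
  · intro h
    have h0 := h 0
    rwa [ev0 hn, Int.natAbs_natCast] at h0

/-- For every `k ≥ 1`:
(1) for `κ > 0` a set `S` of integers of an interval `(A, A + N]` at which `3 * n ^ 2 + 3 * n + 1` has no prime factor
`≤ N ^ κ` contains at most `C N D / log ^ k N` progressions of length `k` with differences at most `D`;
(2) it contains at least `c N D / log ^ k N` of them if it has at least `δ N / log N` elements, and it has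
at least `c N / log N` elements if it contains at least `δ N D / log ^ k N` of them, for all `D` between
`log ^ B N` and `N`;
(3), (4) the same for the set `P A N`, for all `A`. -/
theorem result (k : ℕ) (hk : 1 ≤ k) :
    (∀ κ : ℝ, 0 < κ → ∃ C : ℝ, 0 < C ∧ ∃ B N₀ : ℕ, ∀ N A D : ℕ, N₀ ≤ N → Real.log N ^ B ≤ D →
      ∀ S : Finset ℕ, S ⊆ Ioc A (A + N) → (∀ n ∈ S, Rough κ N n) →
        (AP k D S : ℝ) ≤ C * (N * D / Real.log N ^ k)) ∧
    (∀ κ δ : ℝ, 0 < κ → 0 < δ → ∃ c : ℝ, 0 < c ∧ ∃ B N₀ : ℕ, ∀ N A D : ℕ, N₀ ≤ N →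
      Real.log N ^ B ≤ D → D ≤ N → ∀ S : Finset ℕ, S ⊆ Ioc A (A + N) → (∀ n ∈ S, Rough κ N n) →
        (δ * (N / Real.log N) ≤ S.card → c * (N * D / Real.log N ^ k) ≤ AP k D S) ∧
        (δ * (N * D / Real.log N ^ k) ≤ AP k D S → c * (N / Real.log N) ≤ S.card)) ∧
    (∃ C : ℝ, 0 < C ∧ ∃ B N₀ : ℕ, ∀ N A D : ℕ, N₀ ≤ N → Real.log N ^ B ≤ D →
      (AP k D (P A N) : ℝ) ≤ C * (N * D / Real.log N ^ k)) ∧
    (∀ δ : ℝ, 0 < δ → ∃ c : ℝ, 0 < c ∧ ∃ B N₀ : ℕ, ∀ N A D : ℕ, N₀ ≤ N → Real.log N ^ B ≤ D → D ≤ N →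
      (δ * (N / Real.log N) ≤ (P A N).card → c * (N * D / Real.log N ^ k) ≤ AP k D (P A N)) ∧
      (δ * (N * D / Real.log N ^ k) ≤ AP k D (P A N) → c * (N / Real.log N) ≤ (P A N).card)) := by
  have h := Pool.Agent.V11249.NP.transfer f sys Rough P (fun κ N n hn h => rgh κ N n hn h) mem_P k hk
  simp only [one_mul, pow_one] at h
  exact h

end Pool.Agent.Results.MP_22d6bb_nt.ProgressionsOfArguments
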